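import Pool.Agent.H.MP_f0eba7_co.FinalDefs
import Pool.Agent.H.MP_f0eba7_co.Core

/-!
MP_f0eba7_co: Q2 is true, Q1 is true whenever some part has odd size, and in all cases the
proportional choice number is `∑ ⌈n_i/2⌉` or `1 + ∑ ⌈n_i/2⌉`.
-/

namespace Pool.Agent.Results.MP_f0eba7_co.ChoiceNumber

open Finset Pool.Agent.H.MP_f0eba7_co

theorem eq_of {V : Type} [Fintype V] (G : SimpleGraph V) (k : ℕ) (hk : 1 ≤ k)
    (h1 : PropChoosable G k) (h2 : ∀ l, 1 ≤ l → l < k → ¬ PropChoosable G l) :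
    propChoiceNumber G = k := by
  unfold propChoiceNumber
  have hmem : k ∈ {k | 1 ≤ k ∧ PropChoosable G k} := ⟨hk, h1⟩
  apply le_antisymm
  · exact Nat.sInf_le hmem
  · apply le_csInf ⟨k, hmem⟩
    rintro l ⟨hl, hl'⟩
    by_contra hlt
    exact h2 l hl (not_le.1 hlt) hl'

theorem even_half {t : ℕ} (n : Fin t → ℕ) (heven : ∀ i, Even (n i)) :
    ∑ i, (n i + 1) / 2 = (∑ i, n i) / 2 ∧ 2 * ((∑ i, n i) / 2) = ∑ i, n i := by
  choose m hm using heven
  have h1 : ∑ i, n i = 2 * ∑ i, m i := by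
    rw [mul_sum]
    exact sum_congr rfl (fun i _ => by rw [hm i]; ring)
  have h2 : ∑ i, (n i + 1) / 2 = ∑ i, m i :=
    sum_congr rfl (fun i _ => by have := hm i; omega)
  omega

theorem sum_ge {t : ℕ} (ht : 2 ≤ t) (n : Fin t → ℕ) (hn : ∀ i, 1 ≤ n i) :
    2 ≤ ∑ i, (n i + 1) / 2 := by
  have h : ∑ i : Fin t, 1 ≤ ∑ i, (n i + 1) / 2 :=
    sum_le_sum (fun i _ => by have := hn i; omega)
  simp at h
  omega

theorem sum_le_two {t : ℕ} (n : Fin t → ℕ) : ∑ i, n i ≤ 2 * ∑ i, (n i + 1) / 2 := by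
  rw [mul_sum]
  exact sum_le_sum (fun i _ => by omega)

theorem sum_lt_two {t : ℕ} (n : Fin t → ℕ) (hodd : ∃ i, Odd (n i)) :
    ∑ i, n i < 2 * ∑ i, (n i + 1) / 2 := by
  obtain ⟨i, r, hr⟩ := hodd
  rw [mul_sum]
  exact sum_lt_sum (fun i _ => by omega) ⟨i, mem_univ _, by omega⟩

/-- Let `G = K_{n_1,...,n_t}`, `t ≥ 2`.
(1) (Q2) if all `n_i` are even and `max n_i ≤ s = ∑ n_i / 2`, then `χ_pc(G) = 1 + s`;
(2) if some `n_i` is odd, then `χ_pc(G) = ∑ ⌈n_i/2⌉`;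
(3) in all cases `∑ ⌈n_i/2⌉ ≤ χ_pc(G) ≤ 1 + ∑ ⌈n_i/2⌉`. -/
theorem result {t : ℕ} (ht : 2 ≤ t) (n : Fin t → ℕ) (hn : ∀ i, 1 ≤ n i) :
    (((∀ i, Even (n i)) ∧ ∀ i, n i ≤ (∑ j, n j) / 2) →
      propChoiceNumber (K n) = 1 + (∑ i, n i) / 2) ∧
    ((∃ i, Odd (n i)) → propChoiceNumber (K n) = ∑ i, (n i + 1) / 2) ∧
    (∑ i, (n i + 1) / 2 ≤ propChoiceNumber (K n) ∧
      propChoiceNumber (K n) ≤ 1 + ∑ i, (n i + 1) / 2) := by
  have h2 := sum_ge ht n hn
  have hle := sum_le_two n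
  refine ⟨?_, ?_, ?_, ?_⟩
  · rintro ⟨heven, hmax⟩
    obtain ⟨e1, e2⟩ := even_half n heven
    apply eq_of _ _ (by omega)
    · apply choosable n _ (by omega) (by omega)
    · intro l hl hl'
      rcases Nat.lt_or_ge l ((∑ i, n i) / 2) with h | h
      · exact not_choosable_of_lt ht n hn l hl (by omega)
      · have : l = (∑ i, n i) / 2 := by omega
        rw [this]
        exact not_choosable_H ht n hn heven (fun i => by have := hmax i; omega)
  · intro hodd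
    have hlt := sum_lt_two n hodd
    apply eq_of _ _ (by omega)
    · exact choosable n _ (by omega) le_rfl
    · intro l hl hl'
      exact not_choosable_of_lt ht n hn l hl hl'
  · unfold propChoiceNumber
    apply le_csInf
    · exact ⟨1 + ∑ i, (n i + 1) / 2, by omega, choosable n _ (by omega) (by omega)⟩
    · rintro l ⟨hl, hl'⟩
      by_contra hlt
      exact not_choosable_of_lt ht n hn l hl (not_le.1 hlt) hl'
  · unfold propChoiceNumber
    exact Nat.sInf_le ⟨by omega, choosable n _ (by omega) (by omega)⟩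

end Pool.Agent.Results.MP_f0eba7_co.ChoiceNumber
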