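import Pool.Agent.H.MP_f0eba7_co.FinalDefs
import Pool.Agent.H.MP_f0eba7_co.Core

/-!
MP_f0eba7_co, Q1 is false: for every odd `q ≥ 3` the complete bipartite graph `K_{2,2q}` fails
condition (H), has `⌈2/2⌉ + ⌈2q/2⌉ = q + 1`, and its proportional choice number is `q + 2`.
-/

namespace Pool.Agent.Results.MP_f0eba7_co.CounterQ1

open Finset Pool.Agent.H.MP_f0eba7_co

/-- Colours: `j` common colours, `q` colours that occur only on the part of size `2q`, and
private colours for the two other vertices. -/
abbrev Col (q j : ℕ) : Type := Fin j ⊕ (Fin q ⊕ (ℕ × ℕ))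

/-- The vertices of `K_{2,2q}`. -/
abbrev Ver (q : ℕ) : Type := Σ i : Fin 2, Fin ((![2, 2 * q] : Fin 2 → ℕ) i)

/-- residue of a vertex number -/
def rho (q : ℕ) [NeZero q] (a : ℕ) : Fin q := Fin.ofNat q a

/-- the bad assignment -/
def bad (q j : ℕ) [NeZero q] (v : Ver q) : Finset (Col q j) :=
  univ.image Sum.inl ∪
    (if v.1 = 1 then
      (univ.filter (fun c : Fin q => (c - rho q v.2.val).val < j)).image
        (fun c => Sum.inr (Sum.inl c))
    else (range j).image (fun r => Sum.inr (Sum.inr (v.2.val, r))))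

theorem card_lt (q j : ℕ) (h : j ≤ q) : (univ.filter (fun c : Fin q => c.val < j)).card = j := by
  have : (univ.filter (fun c : Fin q => c.val < j)).card = (range j).card := by
    apply card_bij (fun c _ => c.val)
    · intro c hc
      simpa using hc
    · intro a _ b _ e
      exact Fin.ext e
    · intro b hb
      have hb' : b < j := by simpa using hb
      exact ⟨⟨b, by omega⟩, by simpa using hb', rfl⟩
  rw [this, card_range]

theorem card_c (q j : ℕ) [NeZero q] (h : j ≤ q) (t : Fin q) :
    (univ.filter (fun c : Fin q => (c - t).val < j)).card = j := by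
  refine Eq.trans ?_ (card_lt q j h)
  apply card_bij (fun c _ => c - t)
  · intro c hc
    simpa using hc
  · intro a _ b _ e
    exact sub_left_injective e
  · intro b hb
    exact ⟨b + t, by simpa using hb, by simp⟩

theorem card_t (q j : ℕ) [NeZero q] (h : j ≤ q) (c : Fin q) :
    (univ.filter (fun t : Fin q => (c - t).val < j)).card = j := by
  refine Eq.trans ?_ (card_lt q j h)
  apply card_bij (fun t _ => c - t)
  · intro t ht
    simpa using ht
  · intro a _ b _ e
    exact sub_right_injective e
  · intro b hb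
    exact ⟨c - b, by simpa using hb, by simp⟩

theorem card_bad (q j : ℕ) [NeZero q] (h : j ≤ q) (v : Ver q) : (bad q j v).card = 2 * j := by
  unfold bad
  rw [card_union_of_disjoint]
  · rw [card_image_of_injective _ Sum.inl_injective, card_univ, Fintype.card_fin]
    split_ifs
    · rw [card_image_of_injective, card_c q j h]
      · ring
      · intro a b e
        simpa using e
    · rw [card_image_of_injective, card_range]
      · ring
      · intro a b e
        simpa using e
  · rw [disjoint_left]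
    intro x hx hx'
    simp only [mem_image, mem_univ, true_and] at hx
    obtain ⟨y, rfl⟩ := hx
    split_ifs at hx' <;> simp at hx'

theorem rho_add (q a : ℕ) [NeZero q] : rho q (q + a) = rho q a := by
  apply Fin.ext
  simp [rho, Fin.ofNat]

theorem rho_val (q : ℕ) [NeZero q] (t : Fin q) : rho q t.val = t := by
  apply Fin.ext
  simp [rho, Fin.ofNat, Nat.mod_eq_of_lt t.isLt]

theorem mem_bad_S (q j : ℕ) [NeZero q] (v : Ver q) (c : Fin q) :
    (Sum.inr (Sum.inl c) : Col q j) ∈ bad q j v ↔ v.1 = 1 ∧ (c - rho q v.2.val).val < j := by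
  unfold bad
  rw [mem_union]
  constructor
  · rintro (h | h)
    · simp at h
    · split_ifs at h with h1
      · refine ⟨h1, ?_⟩
        simpa using h
      · simp at h
  · rintro ⟨h1, h2⟩
    right
    rw [if_pos h1]
    simpa using h2

theorem mem_bad_F (q j : ℕ) [NeZero q] (v : Ver q) (b : Fin j) :
    (Sum.inl b : Col q j) ∈ bad q j v := by
  unfold bad
  rw [mem_union]
  left
  simp

theorem card_S (q j : ℕ) [NeZero q] (h : j ≤ q) (c : Fin q) :
    (univ.filter (fun v : Ver q => (Sum.inr (Sum.inl c) : Col q j) ∈ bad q j v)).card = 2 * j := by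
  rw [card_filter, Fintype.sum_sigma, Fin.sum_univ_two]
  have h0 : ∑ x : Fin ((![2, 2 * q] : Fin 2 → ℕ) 0),
      (if (Sum.inr (Sum.inl c) : Col q j) ∈ bad q j ⟨0, x⟩ then 1 else 0) = 0 := by
    apply sum_eq_zero
    intro x _
    rw [if_neg]
    rw [mem_bad_S]
    rintro ⟨h1, _⟩
    exact absurd (show (0 : Fin 2) = 1 from h1) (by decide)
  have h1 : ∑ x : Fin ((![2, 2 * q] : Fin 2 → ℕ) 1),
      (if (Sum.inr (Sum.inl c) : Col q j) ∈ bad q j ⟨1, x⟩ then 1 else 0) =
      ∑ a ∈ range (2 * q), (if (c - rho q a).val < j then 1 else 0) := by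
    rw [← Fin.sum_univ_eq_sum_range (fun a => if (c - rho q a).val < j then 1 else 0) (2 * q)]
    apply sum_congr rfl
    intro x _
    simp only [mem_bad_S, true_and]
  refine (congrArg₂ (· + ·) h0 h1).trans ?_
  rw [zero_add, two_mul q, sum_range_add]
  simp only [rho_add]
  have h2 : ∑ a ∈ range q, (if (c - rho q a).val < j then 1 else 0) = j := by
    rw [← Fin.sum_univ_eq_sum_range (fun a => if (c - rho q a).val < j then 1 else 0) q]
    simp only [rho_val]
    rw [← card_filter, card_t q j h]
  rw [h2]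
  ring

theorem card_F (q j : ℕ) [NeZero q] (b : Fin j) :
    (univ.filter (fun v : Ver q => (Sum.inl b : Col q j) ∈ bad q j v)).card = 2 + 2 * q := by
  rw [filter_true_of_mem (fun v _ => mem_bad_F q j v b), card_univ, Fintype.card_sigma,
    Fin.sum_univ_two, Fintype.card_fin, Fintype.card_fin]
  rfl

theorem not_choosable {q j : ℕ} (hq : q + 1 = 2 * j) (hq3 : 3 ≤ q) :
    ¬ PropChoosable (K (![2, 2 * q] : Fin 2 → ℕ)) (2 * j) := by
  intro hch
  have : NeZero q := ⟨by omega⟩
  have hj : j ≤ q := by omega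
  have hj0 : (0 : ℚ) < 2 * j := by
    have : 0 < j := by omega
    positivity
  obtain ⟨f, hf1, hf2, hf3⟩ := hch (Col q j) (bad q j) (card_bad q j hj)
  -- class sizes
  have hcS : ∀ c : Fin q, (univ.filter (fun v => f v = Sum.inr (Sum.inl c))).card = 1 := by
    intro c
    have hpos : 0 < (univ.filter (fun v : Ver q =>
        (Sum.inr (Sum.inl c) : Col q j) ∈ bad q j v)).card := by
      rw [card_S q j hj]; omega
    obtain ⟨v, hv⟩ := card_pos.1 hpos
    have h := hf3 (Sum.inr (Sum.inl c)) ⟨v, (mem_filter.1 hv).2⟩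
    rw [card_S q j hj] at h
    have h1 : ((2 * j : ℕ) : ℚ) / ((2 * j : ℕ) : ℚ) = ((1 : ℤ) : ℚ) := by
      push_cast
      rw [div_self (ne_of_gt hj0)]
    rw [h1, Int.floor_intCast, Int.ceil_intCast] at h
    rcases h with h | h <;> exact_mod_cast h
  have hcF : ∀ b : Fin j, (univ.filter (fun v => f v = Sum.inl b)).card = 2 := by
    intro b
    have h := hf3 (Sum.inl b) ⟨⟨1, ⟨0, by simp; omega⟩⟩, mem_bad_F q j _ b⟩
    rw [card_F q j b] at h
    have h1 : ((2 + 2 * q : ℕ) : ℚ) / ((2 * j : ℕ) : ℚ) = ((2 : ℤ) : ℚ) := by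
      have h2 : 2 + 2 * q = 2 * (2 * j) := by omega
      rw [h2]
      push_cast
      rw [mul_div_assoc, div_self (ne_of_gt hj0), mul_one]
    rw [h1, Int.floor_intCast, Int.ceil_intCast] at h
    rcases h with h | h <;> exact_mod_cast h
  -- the big part
  set X : Finset (Ver q) := univ.filter (fun v => v.1 = 1) with hX
  have hXcard : X.card = 2 * q := by
    rw [hX, card_filter, Fintype.sum_sigma, Fin.sum_univ_two]
    have h0 : ∑ x : Fin ((![2, 2 * q] : Fin 2 → ℕ) 0), (if (0 : Fin 2) = 1 then 1 else 0) = 0 := by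
      simp
    have h1 : ∑ x : Fin ((![2, 2 * q] : Fin 2 → ℕ) 1), (if (1 : Fin 2) = 1 then 1 else 0) =
        2 * q := by
      rw [sum_congr rfl (fun _ _ => if_pos rfl), sum_const, card_univ, Fintype.card_fin]
      simp
    exact (congrArg₂ (· + ·) h0 h1).trans (zero_add _)
  have hXS : ∀ c : Fin q, (X.filter (fun v => f v = Sum.inr (Sum.inl c))).card = 1 := by
    intro c
    refine Eq.trans ?_ (hcS c)
    congr 1
    ext v
    simp only [hX, mem_filter, mem_univ, true_and]
    constructor
    · exact fun h => h.2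
    · intro h
      refine ⟨?_, h⟩
      have h2 := hf1 v
      rw [h, mem_bad_S] at h2
      exact h2.1
  have hXF : ∀ b : Fin j, Even (X.filter (fun v => f v = Sum.inl b)).card := by
    intro b
    by_cases hb : ∃ v ∈ X, f v = Sum.inl b
    · obtain ⟨v, hv, hvb⟩ := hb
      have h1 : X.filter (fun v => f v = Sum.inl b) =
          univ.filter (fun v => f v = Sum.inl b) := by
        ext u
        simp only [mem_filter, mem_univ, true_and]
        constructor
        · exact fun h => h.2
        · intro h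
          refine ⟨?_, h⟩
          rw [hX, mem_filter]
          refine ⟨mem_univ _, ?_⟩
          by_contra hu
          have hv1 : v.1 = 1 := (mem_filter.1 hv).2
          have hadj : (K (![2, 2 * q] : Fin 2 → ℕ)).Adj u v := by
            simp only [SimpleGraph.comap_adj, SimpleGraph.top_adj, ne_eq]
            intro e
            exact hu (e.trans hv1)
          exact hf2 u v hadj (h.trans hvb.symm)
      rw [h1, hcF b]
      exact even_two
    · have h1 : X.filter (fun v => f v = Sum.inl b) = ∅ := by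
        apply filter_eq_empty_iff.2
        intro v hv h
        exact hb ⟨v, hv, h⟩
      rw [h1]
      simp
  -- counting
  have hmap : ∀ v ∈ X, f v ∈ (univ.image Sum.inl ∪
      univ.image (fun c : Fin q => Sum.inr (Sum.inl c)) : Finset (Col q j)) := by
    intro v hv
    have h1 : v.1 = 1 := (mem_filter.1 hv).2
    have h2 := hf1 v
    unfold bad at h2
    rw [if_pos h1, mem_union] at h2
    rw [mem_union]
    rcases h2 with h2 | h2
    · exact Or.inl h2
    · right
      obtain ⟨c, _, hc⟩ := mem_image.1 h2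
      exact mem_image.2 ⟨c, mem_univ _, hc⟩
  have hcount := card_eq_sum_card_fiberwise hmap
  rw [sum_union, sum_image, sum_image, hXcard] at hcount
  · rw [sum_congr rfl (fun c _ => hXS c)] at hcount
    simp only [sum_const, card_univ, Fintype.card_fin, smul_eq_mul, mul_one] at hcount
    have he : Even (∑ b : Fin j, (X.filter (fun v => f v = Sum.inl b)).card) :=
      even_sum _ (fun b _ => hXF b)
    obtain ⟨r, hr⟩ := he
    rw [hr] at hcount
    omega
  · intro a _ b _ e
    simpa using e
  · intro a _ b _ e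
    simpa using e
  · rw [disjoint_left]
    intro x hx hx'
    obtain ⟨a, _, rfl⟩ := mem_image.1 hx
    obtain ⟨b, _, hb⟩ := mem_image.1 hx'
    simp at hb

/-- Q1 is false: for every odd `q ≥ 3` the graph `K_{2,2q}` fails condition (H), the sum of the
`⌈n_i/2⌉` is `q + 1`, it is not proportionally `(q+1)`-choosable, and its proportional choice
number is `q + 2`. -/
theorem result (q : ℕ) (hodd : Odd q) (hq3 : 3 ≤ q) :
    (¬ ((∀ i, Even ((![2, 2 * q] : Fin 2 → ℕ) i)) ∧
      ∀ i, 2 * (![2, 2 * q] : Fin 2 → ℕ) i ≤ ∑ l, (![2, 2 * q] : Fin 2 → ℕ) l)) ∧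
    ∑ i, ((![2, 2 * q] : Fin 2 → ℕ) i + 1) / 2 = q + 1 ∧
    ¬ PropChoosable (K (![2, 2 * q] : Fin 2 → ℕ)) (q + 1) ∧
    propChoiceNumber (K (![2, 2 * q] : Fin 2 → ℕ)) = q + 2 := by
  obtain ⟨r, hr⟩ := hodd
  have hq : q + 1 = 2 * (r + 1) := by omega
  have hsum : ∑ i, ((![2, 2 * q] : Fin 2 → ℕ) i + 1) / 2 = q + 1 := by
    rw [Fin.sum_univ_two]
    simp only [Matrix.cons_val_zero, Matrix.cons_val_one]
    omega
  have hsum' : ∑ i, (![2, 2 * q] : Fin 2 → ℕ) i = 2 + 2 * q := by
    rw [Fin.sum_univ_two]
    simp only [Matrix.cons_val_zero, Matrix.cons_val_one]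
  have hnot := not_choosable hq hq3
  rw [← hq] at hnot
  refine ⟨?_, hsum, hnot, ?_⟩
  · rintro ⟨_, h⟩
    have h1 := h 1
    rw [hsum'] at h1
    have h2 : (![2, 2 * q] : Fin 2 → ℕ) 1 = 2 * q := rfl
    rw [h2] at h1
    omega
  · have hpos : ∀ i, 1 ≤ (![2, 2 * q] : Fin 2 → ℕ) i := by
      intro i
      fin_cases i
      · exact (by norm_num : 1 ≤ 2)
      · exact (by omega : 1 ≤ 2 * q)
    have hmem : q + 2 ∈ {k | 1 ≤ k ∧ PropChoosable (K (![2, 2 * q] : Fin 2 → ℕ)) k} :=
      ⟨by omega, choosable _ _ (by rw [hsum']; omega) (by rw [hsum]; omega)⟩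
    unfold propChoiceNumber
    apply le_antisymm
    · exact Nat.sInf_le hmem
    · apply le_csInf ⟨q + 2, hmem⟩
      rintro l ⟨hl, hl'⟩
      by_contra hlt
      rcases Nat.lt_or_ge l (q + 1) with h | h
      · exact not_choosable_of_lt le_rfl _ hpos l hl (lt_of_lt_of_eq h hsum.symm) hl'
      · have : l = q + 1 := by omega
        rw [this] at hl'
        exact hnot hl'

end Pool.Agent.Results.MP_f0eba7_co.CounterQ1
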